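import Pool.Agent.helper95.RF.SpecC3
import Pool.Agent.helper27.RF.CPA

/-!
# Row rg:GPA (MP_16912e_nt): the point of a tuple, composite moduli
-/

set_option autoImplicit false

namespace Pool.Agent.RF

open Finset NumberField Pool.Agent.helper3.FT

theorem GPA_norm_eq (x : OO) : x.norm = x.re ^ 2 + x.re * x.im - x.im ^ 2 := by
  rw [QuadraticAlgebra.norm_def]
  ring

theorem GPA_norm_ne (x : OO) (hx : x ≠ 0) : x.norm ≠ 0 := by
  intro h0
  have hirr : Irrational (√5 : ℝ) := by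
    have := Nat.Prime.irrational_sqrt (p := 5) (by norm_num)
    simpa using this
  have h5 : (√5 : ℝ) ^ 2 = 5 := Real.sq_sqrt (by norm_num)
  rw [GPA_norm_eq] at h0
  have h0' : (x.re : ℝ) ^ 2 + x.re * x.im - (x.im : ℝ) ^ 2 = 0 := by exact_mod_cast h0
  have h1 : (2 * (x.re : ℝ) + x.im + x.im * √5) * (2 * (x.re : ℝ) + x.im - x.im * √5) = 0 := by
    linear_combination 4 * h0' - (x.im : ℝ) ^ 2 * h5
  have him : x.im = 0 := by
    by_contra him
    have him' : (x.im : ℝ) ≠ 0 := by exact_mod_cast him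
    rcases mul_eq_zero.mp h1 with h | h
    · apply hirr
      refine ⟨-(2 * (x.re : ℚ) + x.im) / x.im, ?_⟩
      push_cast
      field_simp
      linear_combination (-1 : ℝ) * h
    · apply hirr
      refine ⟨(2 * (x.re : ℚ) + x.im) / x.im, ?_⟩
      push_cast
      field_simp
      linear_combination (1 : ℝ) * h
  have hre : x.re = 0 := by
    rw [him] at h0
    nlinarith
  apply hx
  ext
  · simpa using hre
  · simpa using him


theorem GPA : GPA_stmt := by
  intro E P k M₀ M s₀ s hE hP10 hP1 hk0 hcop hkE hC hM hs hCG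
  set k' : OO := star k with hk'
  set M' : OO := star M with hM'
  have kn0 : k.norm ≠ 0 := GPA_norm_ne k hk0
  have kn0' : k'.norm ≠ 0 := by
    rw [hk', QuadraticAlgebra.norm_star]
    exact kn0
  have hkdvd : k ∣ ((k.norm : ℤ) : OO) := ⟨star k, CPA_ns k⟩
  have hk'dvd : k' ∣ ((k.norm : ℤ) : OO) := ⟨k, by rw [CPA_ns k, mul_comm]⟩
  have hnE : IsCoprime k.norm (E : ℤ) := by
    have h1 : IsCoprime (k.norm.natAbs : ℤ) (E : ℤ) := Nat.isCoprime_iff_coprime.2 hkE
    rcases Int.natAbs_eq k.norm with h2 | h2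
    · rw [h2]
      exact h1
    · rw [h2]
      exact h1.neg_left
  have cint : ∀ m : ℤ, m ∣ (E : ℤ) → IsCoprime k (m : OO) ∧ IsCoprime k' (m : OO) := by
    intro m hm
    have h1 : IsCoprime k.norm m := hnE.of_isCoprime_of_dvd_right hm
    exact ⟨(CPA_icop h1).of_isCoprime_of_dvd_left hkdvd, (CPA_icop h1).of_isCoprime_of_dvd_left hk'dvd⟩
  have hEz : (E : ℤ) = 16 * 5 ^ 6 * P := by rw [hE]; push_cast; ring
  have hq2 : (2 : ℤ) ∣ (E : ℤ) := ⟨8 * 5 ^ 6 * P, by rw [hEz]; ring⟩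
  have hq5 : (5 : ℤ) ∣ (E : ℤ) := ⟨16 * 5 ^ 5 * P, by rw [hEz]; ring⟩
  have hqP : (P : ℤ) ∣ (E : ℤ) := ⟨16 * 5 ^ 6, by rw [hEz]; ring⟩
  have ckk : IsCoprime k k' := hcop
  have ck2 : IsCoprime k 2 := by have := (cint 2 hq2).1; exact_mod_cast this
  have ck'2 : IsCoprime k' 2 := by have := (cint 2 hq2).2; exact_mod_cast this
  have ck5 : IsCoprime k 5 := by have := (cint 5 hq5).1; exact_mod_cast this
  have ck'5 : IsCoprime k' 5 := by have := (cint 5 hq5).2; exact_mod_cast this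
  have ckP : IsCoprime k (P : OO) := by have := (cint P hqP).1; exact_mod_cast this
  have phu : IsUnit ph := IsUnit.of_mul_eq_one (-star ph) (by rw [mul_neg, CPA_ph, neg_neg])
  have phu' : IsUnit (star ph) := IsUnit.of_mul_eq_one (-ph) (by rw [mul_neg, mul_comm, CPA_ph, neg_neg])
  have hpp := CPA_ph
  have h55 := CPA_r5
  have cph' : ∀ z : OO, IsCoprime z (star ph) := fun z => ⟨0, -ph, by linear_combination (-1 : OO) * hpp⟩
  have cph : ∀ z : OO, IsCoprime z ph := fun z => ⟨0, -star ph, by linear_combination (-1 : OO) * hpp⟩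
  -- `16 ∣ M`, `s = 2 + 16 u`
  have h16E : (16 : ℤ) ∣ (E : ℤ) := ⟨5 ^ 6 * P, by rw [hEz]; ring⟩
  have h56E : (5 ^ 6 : ℤ) ∣ (E : ℤ) := ⟨16 * P, by rw [hEz]; ring⟩
  have hPE : (P : ℤ) ∣ (E : ℤ) := ⟨16 * 5 ^ 6, by rw [hEz]; ring⟩
  have h16E' : (16 : OO) ∣ (E : OO) := by have := (Int.cast_dvd_cast (α := OO) _ _ h16E); exact_mod_cast this
  have h56E' : (5 ^ 6 : OO) ∣ (E : OO) := by have := (Int.cast_dvd_cast (α := OO) _ _ h56E); exact_mod_cast this
  have hPE' : (P : OO) ∣ (E : OO) := by have := (Int.cast_dvd_cast (α := OO) _ _ hPE); exact_mod_cast this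
  have h16M : (16 : OO) ∣ M := by
    have h1 := dvd_add (h16E'.trans hM) hC.m2
    rwa [sub_add_cancel] at h1
  obtain ⟨m, hm⟩ := h16M
  have hm' : M' = 16 * star m := by
    rw [hM', hm, star_mul', star_ofNat]
  obtain ⟨u, hu⟩ : ∃ u : ℤ, s = 2 + 16 * u := by
    obtain ⟨a, ha⟩ := h16E.trans hs
    obtain ⟨b, hb⟩ := hC.s2
    exact ⟨a + b, by linarith⟩
  have ht : ((M.norm : ℤ) : OO) = M * M' := CPA_ns M
  have hsO : (s : OO) = 2 + 16 * (u : OO) := by rw [hu]; push_cast; ring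
  -- (n)
  have hCG' : k ^ 3 ∣ k' ^ 2 * (r5 * (s : OO) - M * M') - 2 * ph * k ^ 2 * M ^ 2 := by
    have := hCG
    unfold CG at this
    rwa [ht] at this
  have hn1 : k ^ 2 ∣ r5 * (s : OO) - M * M' := by
    have h1 : k ^ 2 ∣ k' ^ 2 * (r5 * (s : OO) - M * M') := by
      have h2 : k ^ 2 ∣ k' ^ 2 * (r5 * (s : OO) - M * M') - 2 * ph * k ^ 2 * M ^ 2 := (pow_dvd_pow k (by norm_num)).trans hCG'
      have h3 : k ^ 2 ∣ 2 * ph * k ^ 2 * M ^ 2 := ⟨2 * ph * M ^ 2, by ring⟩
      have h4 := dvd_add h2 h3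
      rwa [sub_add_cancel] at h4
    exact (IsCoprime.pow ckk).dvd_of_dvd_mul_left h1
  have hn2 : 2 * k ^ 2 ∣ r5 * (s : OO) - M * M' := by
    refine (ck2.symm.pow_right).mul_dvd ?_ hn1
    rw [hm, hm', hsO]
    exact ⟨r5 * (1 + 8 * (u : OO)) - 128 * (m * star m), by ring⟩
  obtain ⟨w, hw⟩ := hn2
  obtain ⟨n, hn⟩ : ∃ n : OO, star n = -star ph * w := ⟨star (-star ph * w), star_star _⟩
  set n' : OO := star n with hn'
  have eA : 2 * ph * n' * k ^ 2 = r5 * (s : OO) - M * M' := by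
    rw [hw, hn]
    linear_combination (-2 * w * k ^ 2) * hpp
  have starM : star M' = M := star_star M
  have stark : star k' = k := star_star k
  have starn : star n' = n := star_star n
  have eB : 2 * star ph * n * k' ^ 2 = -(r5 * (s : OO)) - M * M' := by
    have h1 := congrArg star eA
    simp only [star_mul', star_sub, star_pow, star_ofNat, star_intCast, CPA_r5s, starM, starn] at h1
    rw [← hk', ← hM'] at h1
    linear_combination h1
  have c2 : (2 : OO).norm ≠ 0 := by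
    rw [CPA_norm]
    decide
  have e4 : ph * n' * k ^ 2 + star ph * n * k' ^ 2 = -(M * M') := by
    refine CPA_cancel c2 ?_
    linear_combination eA + eB
  -- (5)
  have h5a : k' ∣ n * k ^ 2 - M' ^ 2 := by
    have h1 := CPA_star_dvd hCG'
    simp only [star_mul', star_sub, star_pow, star_ofNat, star_intCast, CPA_r5s, starM, stark] at h1
    rw [← hk', ← hM'] at h1
    have e : k ^ 2 * (-r5 * (s : OO) - M' * M) - 2 * star ph * k' ^ 2 * M' ^ 2 = k' ^ 2 * (2 * star ph * (n * k ^ 2 - M' ^ 2)) := by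
      linear_combination (-k ^ 2) * eB
    rw [e] at h1
    have h2 : k' ^ 2 * k' ∣ k' ^ 2 * (2 * star ph * (n * k ^ 2 - M' ^ 2)) := by
      have e3 : k' ^ 2 * k' = k' ^ 3 := by ring
      rwa [e3]
    have h3 : k' ∣ 2 * star ph * (n * k ^ 2 - M' ^ 2) := by
      refine CPA_dcancel ?_ h2
      rw [map_pow]
      exact pow_ne_zero _ kn0'
    have h4 : IsCoprime k' (2 * star ph) := ck'2.mul_right (cph' k')
    exact h4.dvd_of_dvd_mul_left h3
  -- the point `X`
  have hX1 : k' ∣ n * M + ph * n' * M' := by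
    have h1 : k' ∣ k ^ 2 * (n * M + ph * n' * M') := by
      have e : k ^ 2 * (n * M + ph * n' * M') = (n * k ^ 2 - M' ^ 2) * M + k' * (-(star ph * n * k' * M')) := by
        linear_combination M' * e4
      rw [e]
      exact dvd_add (h5a.mul_right _) (dvd_mul_right _ _)
    exact (ckk.symm.pow_right).dvd_of_dvd_mul_left h1
  have hX2 : 2 ^ 4 * k' ∣ n * M + ph * n' * M' := by
    refine (ck'2.symm.pow_left).mul_dvd ?_ hX1
    rw [hm, hm']
    exact ⟨n * m + ph * n' * star m, by ring⟩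
  obtain ⟨Y, hY⟩ := hX2
  obtain ⟨X, hX⟩ : ∃ X : OO, X = -(8 * Y) := ⟨_, rfl⟩
  have eX : 2 * k' * X = -(n * M + ph * n' * M') := by
    rw [hY, hX]
    ring
  set X' : OO := star X with hX'
  have eX' : 2 * k * X' = -(n' * M' + star ph * n * M) := by
    have h1 := congrArg star eX
    simp only [star_mul', star_neg, star_add, star_ofNat, starM, starn, stark] at h1
    rw [← hX', ← hM', ← hn'] at h1
    linear_combination h1
  have e2 : n * M = ph * X' * k - X * k' := by
    refine CPA_cancel c2 ?_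
    linear_combination ph * (-1 : OO) * eX' + eX + n * M * hpp
  have eP : ph * X' * k + X * k' = -(ph * n' * M') := by
    refine CPA_cancel c2 ?_
    linear_combination ph * eX' + eX - n * M * hpp
  -- the discriminant
  obtain ⟨G, hG⟩ : ∃ G : OO, G = n ^ 2 * n' - X ^ 2 := ⟨_, rfl⟩
  have sG : star G = n' ^ 2 * n - X' ^ 2 := by
    rw [hG]
    simp only [star_mul', star_sub, star_pow, starn]
    rfl
  have eG : k' ^ 2 * G = ph ^ 2 * k ^ 2 * star G := by
    rw [sG, hG]
    have h1 : ph ^ 2 * k ^ 2 * X' ^ 2 - k' ^ 2 * X ^ 2 = n * M * -(ph * n' * M') := by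
      rw [← eP]
      linear_combination (-(ph * X' * k + X * k')) * e2
    have h2 : n * M * -(ph * n' * M') = ph * n * n' * (ph * n' * k ^ 2 + star ph * n * k' ^ 2) := by
      rw [e4]
      ring
    rw [h2] at h1
    linear_combination h1 + n ^ 2 * n' * k' ^ 2 * hpp
  have hG1 : k ^ 2 ∣ G := by
    have h1 : k ^ 2 ∣ k' ^ 2 * G := by
      rw [eG]
      exact ⟨ph ^ 2 * star G, by ring⟩
    exact (IsCoprime.pow ckk).dvd_of_dvd_mul_left h1
  obtain ⟨G₁, hG₁⟩ := hG1
  have ckn : (k ^ 2 * k' ^ 2).norm ≠ 0 := by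
    rw [map_mul, map_pow, map_pow]
    exact mul_ne_zero (pow_ne_zero _ kn0) (pow_ne_zero _ kn0')
  have sG2 : star G = k' ^ 2 * star G₁ := by
    rw [hG₁, star_mul', star_pow]
  have eG₁ : G₁ = ph ^ 2 * star G₁ := by
    refine CPA_cancel ckn ?_
    rw [sG2] at eG
    rw [hG₁] at eG
    linear_combination eG
  obtain ⟨z, hz⟩ : ∃ z : OO, z = star ph * G₁ := ⟨_, rfl⟩
  have sz : star z = -z := by
    have h1 : star z = ph * star G₁ := by rw [hz, star_mul', star_star]
    rw [h1, hz]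
    linear_combination (star ph) * eG₁ + (ph * star G₁) * hpp
  obtain ⟨x, hx⟩ : ∃ x : ℤ, x = z.re := ⟨_, rfl⟩
  have hzx : z = -((x : OO) * r5) := by
    have h1 := congrArg QuadraticAlgebra.re sz
    rw [QuadraticAlgebra.re_star, QuadraticAlgebra.re_neg] at h1
    ext
    · simp [r5, hx]
    · simp [r5, hx]
      linarith
  have hGx : G = (x : OO) * w2 * k ^ 2 := by
    have h1 : G₁ = (x : OO) * w2 := by
      have h2 : G₁ = -(ph * z) := by
        rw [hz]
        linear_combination G₁ * hpp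
      rw [h2, hzx, CPA_w2]
      ring
    rw [hG₁, h1]
    ring
  -- the prime 5
  obtain ⟨n₀, hn25, hm5a, hm5b, hm5c⟩ := hC.m5
  rw [CPA_ns] at hm5a
  have dM : (E : OO) ∣ M' - star M₀ := by
    have h1 := CPA_star_dvd hM
    rwa [star_natCast, star_sub] at h1
  have ds : (E : OO) ∣ (s : OO) - (s₀ : OO) := by
    have h1 := (Int.cast_dvd_cast (α := OO) _ _ hs)
    push_cast at h1
    exact h1
  have dN : (E : OO) ∣ (r5 * (s : OO) - M * M') - (r5 * (s₀ : OO) - M₀ * star M₀) := by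
    have e : (r5 * (s : OO) - M * M') - (r5 * (s₀ : OO) - M₀ * star M₀) = ((s : OO) - (s₀ : OO)) * r5 - ((M - M₀) * M' + (M' - star M₀) * M₀) := by ring
    rw [e]
    exact dvd_sub (ds.mul_right _) (dvd_add (hM.mul_right _) (dM.mul_right _))
  have c52 : IsCoprime (5 : OO) 2 := ⟨1, -2, by norm_num⟩
  have dn' : (5 ^ 6 : OO) ∣ n' - star n₀ := by
    have h1 : (5 ^ 6 : OO) ∣ 2 * ph * k ^ 2 * (n' - star n₀) := by
      have e : 2 * ph * k ^ 2 * (n' - star n₀) = ((r5 * (s : OO) - M * M') - (r5 * (s₀ : OO) - M₀ * star M₀)) -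
          (2 * ph * star n₀ * k ^ 2 - (r5 * (s₀ : OO) - M₀ * star M₀)) := by linear_combination eA
      rw [e]
      exact dvd_sub (h56E'.trans dN) hm5a
    have h2 : IsCoprime (5 ^ 6 : OO) (2 * ph * k ^ 2) := IsCoprime.pow_left ((c52.mul_right (cph 5)).mul_right (ck5.symm.pow_right))
    exact h2.dvd_of_dvd_mul_left h1
  have dn : (5 ^ 6 : OO) ∣ n - n₀ := by
    have h1 := CPA_star_dvd dn'
    rwa [star_pow, star_ofNat, star_sub, star_star, star_star] at h1
  have dX : (5 ^ 6 : OO) ∣ X - 1 := by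
    have h1 : (5 ^ 6 : OO) ∣ 2 * k' * (X - 1) := by
      have e : 2 * k' * (X - 1) = -(((n - n₀) * M + (M - M₀) * n₀ + ph * ((n' - star n₀) * M' + (M' - star M₀) * star n₀))) -
          (n₀ * M₀ + ph * star n₀ * star M₀ + 2 * k') := by linear_combination eX
      rw [e]
      refine dvd_sub ((dvd_neg).2 (dvd_add (dvd_add (dn.mul_right _) ((h56E'.trans hM).mul_right _)) (Dvd.dvd.mul_left ?_ _))) hm5b
      exact dvd_add (dn'.mul_right _) ((h56E'.trans dM).mul_right _)
    have h2 : IsCoprime (5 ^ 6 : OO) (2 * k') := IsCoprime.pow_left (c52.mul_right ck'5.symm)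
    exact h2.dvd_of_dvd_mul_left h1
  have dx : (5 ^ 6 : ℤ) ∣ x - 1250 := by
    have h1 : (5 ^ 6 : OO) ∣ k ^ 2 * (ph * (r5 * ((x : OO) - 1250))) := by
      have e : k ^ 2 * (ph * (r5 * ((x : OO) - 1250))) = ((n - n₀) * ((n + n₀) * n') + (n' - star n₀) * n₀ ^ 2) - (X - 1) * (X + 1) +
          (n₀ ^ 2 * star n₀ - 1 - 1250 * w2 * k ^ 2) := by
        rw [CPA_w2]
        have h2 := hGx
        rw [hG, CPA_w2] at h2
        linear_combination (-1 : OO) * h2
      rw [e]
      exact dvd_add (dvd_sub (dvd_add (dn.mul_right _) (dn'.mul_right _)) (dX.mul_right _)) hm5c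
    have h2 : (5 ^ 6 : OO) ∣ r5 * ((x : OO) - 1250) := by
      have h3 := (IsCoprime.pow_left ck5.symm.pow_right : IsCoprime (5 ^ 6 : OO) (k ^ 2)).dvd_of_dvd_mul_left h1
      exact (cph (5 ^ 6 : OO)).dvd_of_dvd_mul_left h3
    have h3 : ((5 ^ 6 : ℤ) : OO) ∣ r5 * ((x - 1250 : ℤ) : OO) := by
      push_cast
      exact h2
    rw [CPA_castdvd] at h3
    have h4 := h3.1
    have e : (r5 * ((x - 1250 : ℤ) : OO)).re = -(x - 1250) := CPA_r5re _
    rw [e] at h4
    exact (dvd_neg).1 h4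
  obtain ⟨y, hy⟩ := dx
  obtain ⟨D, hD⟩ : ∃ D : ℤ, D = 2 + 25 * y := ⟨_, rfl⟩
  have hxD : x = 625 * D := by
    rw [hD]
    linarith
  have eD : X ^ 2 + w2 * (D : OO) * (25 * k) ^ 2 = n ^ 2 * n' := by
    have h2 := hGx
    rw [hG, hxD] at h2
    push_cast at h2
    linear_combination (-1 : OO) * h2
  -- the prime 2
  have eA2 : ph * n' * k ^ 2 = r5 * (1 + 8 * (u : OO)) - 128 * (m * star m) := by
    refine CPA_cancel c2 ?_
    have h1 := eA
    rw [hm', hsO] at h1
    rw [hm] at h1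
    linear_combination h1
  have eB2 : star ph * n * k' ^ 2 = -(r5 * (1 + 8 * (u : OO))) - 128 * (m * star m) := by
    refine CPA_cancel c2 ?_
    have h1 := eB
    rw [hm', hsO] at h1
    rw [hm] at h1
    linear_combination h1
  have cn2 : IsCoprime 2 n := by
    refine ⟨ph + 4 * (u : OO) * r5 + 64 * (m * star m), star ph * k' ^ 2, ?_⟩
    linear_combination eB2 - CPA_r5p
  have hD8 : D % 8 = 5 := by
    have hkk : k * k' = ((k.norm : ℤ) : OO) := (CPA_ns k).symm
    have hodd : k.norm % 2 = 1 ∨ k.norm % 2 = -1 := by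
      have h1 : ¬ (2 : ℤ) ∣ k.norm := by
        intro h2
        have h3 := hnE.isUnit_of_dvd' h2 hq2
        exact Int.prime_two.not_isUnit h3
      omega
    have hN4 : (8 : ℤ) ∣ k.norm ^ 4 - 1 := by
      have h1 : k.norm % 8 = 1 ∨ k.norm % 8 = 3 ∨ k.norm % 8 = 5 ∨ k.norm % 8 = 7 := by omega
      have h2 : (k.norm ^ 4 - 1) % 8 = 0 := by
        rcases h1 with h | h | h | h <;> simp [Int.sub_emod, pow_succ, Int.mul_emod, h]
      exact Int.dvd_of_emod_eq_zero h2
    have h1 : ((8 : ℤ) : OO) ∣ r5 * ((625 * D * k.norm ^ 4 - 5 : ℤ) : OO) := by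
      obtain ⟨α, hα⟩ : ∃ α : OO, α = r5 * (u : OO) - 16 * (m * star m) := ⟨_, rfl⟩
      obtain ⟨β, hβ⟩ : ∃ β : OO, β = -(r5 * (u : OO)) - 16 * (m * star m) := ⟨_, rfl⟩
      have a1 : ph * n' * k ^ 2 = r5 + 8 * α := by
        rw [eA2, hα]
        ring
      have b1 : star ph * n * k' ^ 2 = -r5 + 8 * β := by
        rw [eB2, hβ]
        ring
      have e1 : (ph * n' * k ^ 2) * (star ph * n * k' ^ 2) ^ 2 = -(star ph) * (n ^ 2 * n') * (k ^ 2 * k' ^ 4) := by
        linear_combination (star ph * n ^ 2 * n' * k ^ 2 * k' ^ 4) * hpp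
      have e2' : n ^ 2 * n' = 8 * (8 * Y ^ 2) + r5 * ph * (625 * (D : OO)) * k ^ 2 := by
        rw [← eD, hX, CPA_w2]
        ring
      have e3 : r5 * ((625 * D * k.norm ^ 4 - 5 : ℤ) : OO) = (r5 + 8 * α) * (-r5 + 8 * β) ^ 2 + star ph * (8 * (8 * Y ^ 2)) * (k ^ 2 * k' ^ 4) - 5 * r5 := by
        rw [← a1, ← b1, e1, e2']
        push_cast
        rw [← hkk]
        linear_combination (r5 * (625 * (D : OO)) * k ^ 4 * k' ^ 4) * hpp
      rw [e3]
      refine ⟨α * (-r5 + 8 * β) ^ 2 + r5 * (-2 * r5 * β + 8 * β ^ 2) + star ph * (8 * Y ^ 2) * (k ^ 2 * k' ^ 4), ?_⟩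
      push_cast
      linear_combination r5 * h55
    rw [CPA_castdvd] at h1
    have h2 := h1.1
    have e : (r5 * ((625 * D * k.norm ^ 4 - 5 : ℤ) : OO)).re = -(625 * D * k.norm ^ 4 - 5) := CPA_r5re _
    rw [e] at h2
    have h3 : (8 : ℤ) ∣ 625 * D * k.norm ^ 4 - 5 := (dvd_neg).1 h2
    have h4 : (8 : ℤ) ∣ 625 * D * (k.norm ^ 4 - 1) := hN4.mul_left _
    have h5 : (8 : ℤ) ∣ 625 * D - 5 := by
      have h6 := dvd_sub h3 h4
      have e6 : 625 * D * k.norm ^ 4 - 5 - 625 * D * (k.norm ^ 4 - 1) = 625 * D - 5 := by ring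
      rwa [e6] at h6
    omega
  have hD20 : D % 20 = 17 := by omega
  -- (5), conjugate
  have h5b : k ∣ M ^ 2 - n' * k' ^ 2 := by
    have h1 := CPA_star_dvd h5a
    simp only [star_sub, star_mul', star_pow, stark, starM] at h1
    rw [← hn', ← hk'] at h1
    have e : M ^ 2 - n' * k' ^ 2 = -(n' * k' ^ 2 - M ^ 2) := by ring
    rw [e]
    exact (dvd_neg).2 h1
  -- (l)
  have hl : ∀ l : ℕ, l.Prime → l ≠ 2 → l ≠ 5 → ((l : OO) ∣ n → (l : ℤ) ∣ M.norm ∧ (l : ℤ) ∣ s) ∧
      ((l : ℤ) ∣ k.norm → (l : ℤ) ∣ n.norm → (l : ℤ) ∣ M.norm) := by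
    intro l hlp hl2 hl5
    have hlz : Prime (l : ℤ) := Nat.prime_iff_prime_int.1 hlp
    have hl2' : ¬ (l : ℤ) ∣ 2 := by
      intro h
      have h1 : l ∣ 2 := by exact_mod_cast h
      exact hl2 ((Nat.prime_dvd_prime_iff_eq hlp Nat.prime_two).1 h1)
    have hcast : ∀ z : OO, (l : OO) ∣ z → (l : ℤ) ∣ z.re := by
      intro z hz
      have h1 : ((l : ℤ) : OO) ∣ z := by exact_mod_cast hz
      exact ((CPA_castdvd _ _).1 h1).1
    constructor
    · intro h
      have h' : (l : OO) ∣ n' := by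
        have h1 := CPA_star_dvd h
        rwa [star_natCast] at h1
      have hA : (l : OO) ∣ r5 * (s : OO) - M * M' := by
        rw [← eA]
        exact (h'.mul_left _).mul_right _
      have hB : (l : OO) ∣ -(r5 * (s : OO)) - M * M' := by
        rw [← eB]
        exact (h.mul_left _).mul_right _
      constructor
      · have h1 : (l : OO) ∣ ((2 * M.norm : ℤ) : OO) := by
          have e : ((2 * M.norm : ℤ) : OO) = -((r5 * (s : OO) - M * M') + (-(r5 * (s : OO)) - M * M')) := by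
            push_cast
            rw [ht]
            ring
          rw [e]
          exact (dvd_neg).2 (dvd_add hA hB)
        have h2 := hcast _ h1
        rw [QuadraticAlgebra.re_intCast] at h2
        exact (hlz.dvd_or_dvd h2).resolve_left hl2'
      · have h1 : (l : OO) ∣ r5 * ((2 * s : ℤ) : OO) := by
          have e : r5 * ((2 * s : ℤ) : OO) = (r5 * (s : OO) - M * M') - (-(r5 * (s : OO)) - M * M') := by
            push_cast
            ring
          rw [e]
          exact dvd_sub hA hB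
        have h2 := hcast _ h1
        rw [CPA_r5re] at h2
        exact (hlz.dvd_or_dvd ((dvd_neg).1 h2)).resolve_left hl2'
    · intro h1 h2
      obtain ⟨c, hc⟩ := h5b
      obtain ⟨κ, hκ⟩ := h1
      obtain ⟨t, ht2⟩ := h2
      have hkk : k * k' = (l : OO) * (κ : OO) := by
        have e := CPA_ns k
        rw [hκ] at e
        push_cast at e
        rw [← hk'] at e
        exact e.symm
      have hnn : n * n' = (l : OO) * (t : OO) := by
        have e := CPA_ns n
        rw [ht2] at e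
        push_cast at e
        rw [← hn'] at e
        exact e.symm
      have h3 : ((M.norm : ℤ) : OO) ^ 3 = (l : OO) * (-(star ph * (t : OO) * k' ^ 4 * M' ^ 2)) + k * ((c * (M * M') - ph * n' ^ 2 * k * k' ^ 2) * M' ^ 2) := by
        rw [ht]
        linear_combination (M * M' ^ 3) * hc + (n' * k' ^ 2 * M' ^ 2) * e4 - (star ph * k' ^ 4 * M' ^ 2) * hnn
      obtain ⟨b, hb⟩ : ∃ b : OO, b = -(star ph * (t : OO) * k' ^ 4 * M' ^ 2) := ⟨_, rfl⟩
      obtain ⟨a, ha⟩ : ∃ a : OO, a = (c * (M * M') - ph * n' ^ 2 * k * k' ^ 2) * M' ^ 2 := ⟨_, rfl⟩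
      rw [← hb, ← ha] at h3
      have h4 : ((M.norm : ℤ) : OO) ^ 3 = (l : OO) * star b + k' * star a := by
        have h5 := congrArg star h3
        simp only [star_pow, star_intCast, star_add, star_mul', star_natCast] at h5
        rw [← hk'] at h5
        exact h5
      have h6 : (l : OO) ∣ ((M.norm ^ 6 : ℤ) : OO) := by
        refine ⟨(l : OO) * (b * star b) + b * (k' * star a) + k * a * star b + (κ : OO) * (a * star a), ?_⟩
        push_cast
        have e : ((M.norm : ℤ) : OO) ^ 6 = ((M.norm : ℤ) : OO) ^ 3 * ((M.norm : ℤ) : OO) ^ 3 := by ring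
        rw [e]
        nth_rewrite 1 [h3]
        rw [h4]
        linear_combination (a * star a) * hkk
      have h7 := hcast _ h6
      rw [QuadraticAlgebra.re_intCast] at h7
      exact hlz.dvd_of_dvd_pow h7
  -- modulo `P`
  have dP : (P : OO) ∣ n - 1 := by
    have hmP := hC.mP
    rw [CPA_ns] at hmP
    have h1 : (P : OO) ∣ 2 * ph * k ^ 2 * (n' - 1) := by
      have e : 2 * ph * k ^ 2 * (n' - 1) = ((r5 * (s : OO) - M * M') - (r5 * (s₀ : OO) - M₀ * star M₀)) -
          (2 * ph * k ^ 2 - (r5 * (s₀ : OO) - M₀ * star M₀)) := by linear_combination eA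
      rw [e]
      exact dvd_sub (hPE'.trans dN) hmP
    have cP2 : IsCoprime (P : OO) 2 := by
      have h2 : IsCoprime (P : ℤ) 2 := by
        have h3 : Nat.Coprime P 2 := Nat.Coprime.coprime_dvd_right (by norm_num) hP10
        exact_mod_cast Nat.isCoprime_iff_coprime.2 h3
      have h4 := CPA_icop h2
      exact_mod_cast h4
    have h2 : IsCoprime (P : OO) (2 * ph * k ^ 2) := (cP2.mul_right (cph _)).mul_right (ckP.symm.pow_right)
    have h3 := h2.dvd_of_dvd_mul_left h1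
    have h4 := CPA_star_dvd h3
    rwa [star_natCast, star_sub, star_one, starn] at h4
  refine ⟨n, X, D, ?_, eX, eD, e2, h5b, ?_, ?_, cn2, hD20, dP, hl⟩
  · rw [ht]
    exact eA
  · exact dvd_trans ⟨625, by norm_num⟩ dX
  · have h1 : (25 : OO) ∣ n - n₀ := dvd_trans ⟨625, by norm_num⟩ dn
    have h2 := dvd_add h1 hn25
    rwa [sub_add_sub_cancel] at h2

end Pool.Agent.RF
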